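import Pool.Agent.Helper94.GA.Goals

namespace Pool.Agent.Helper57.GA

open Finset Pointwise Filter Topology
open Pool.Agent.Helper94.GA

universe u

open Polynomial in
theorem EMB : EMB_stmt.{u} := by
  intro K _ _ hK α hα
  classical
  have hmonic : (minpoly ℤ α).Monic := minpoly.monic hα
  have hQ : minpoly ℚ α = (minpoly ℤ α).map (algebraMap ℤ ℚ) :=
    minpoly.isIntegrallyClosed_eq_field_fractions' ℚ hα
  have hsep : (minpoly ℚ α).Separable :=
    (minpoly.irreducible (hα.tower_top (A := ℚ))).separable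
  have hmap : (minpoly ℤ α).map (Int.castRingHom ℂ) = (minpoly ℚ α).map (algebraMap ℚ ℂ) := by
    rw [hQ, Polynomial.map_map]
    congr 1
  have hsepC : ((minpoly ℤ α).map (Int.castRingHom ℂ)).Separable := by
    rw [hmap]; exact hsep.map
  have hnd : ((minpoly ℤ α).map (Int.castRingHom ℂ)).roots.Nodup :=
    Polynomial.nodup_roots hsepC
  refine ⟨((minpoly ℤ α).map (Int.castRingHom ℂ)).roots.toFinset, ?_, ?_⟩
  · intro z hz
    rw [Multiset.mem_toFinset, hmap] at hz
    have hz' : z ∈ (minpoly ℚ α).rootSet ℂ := by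
      rw [Polynomial.rootSet, Finset.mem_coe, Multiset.mem_toFinset]
      exact hz
    rw [← Algebra.IsAlgebraic.range_eval_eq_rootSet_minpoly ℂ α] at hz'
    obtain ⟨φ, hφ⟩ := hz'
    exact ⟨φ.toRingHom, hφ⟩
  · unfold mah
    rw [Polynomial.mahlerMeasure_eq_leadingCoeff_mul_prod_roots]
    have hl : ((minpoly ℤ α).map (Int.castRingHom ℂ)).leadingCoeff = 1 :=
      (hmonic.map _).leadingCoeff
    rw [hl, norm_one, one_mul, Finset.prod_eq_multiset_prod, Multiset.toFinset_val,
      Multiset.dedup_eq_self.mpr hnd]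

end Pool.Agent.Helper57.GA
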